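import Pool.Agent.Lib.US.All79
import Pool.Agent.Lib.US.Fin13

/-! An FPRAS for the Tutte polynomial at every rational point with `0 ≤ x`, `0 ≤ y` and
`(x - 1) (y - 1) ≤ 2`. -/

namespace Pool.Agent.Results.MP_b67cc8_lc.NonnegQuadrant

/-- `r(A) = n - k(A)`, where `k(A)` is the number of connected components of the graph on the
vertices `0, ..., n - 1` with the edges in the list `A`. -/
noncomputable def rank (n : ℕ) (A : List (ℕ × ℕ)) : ℕ :=
  n - Nat.card (SimpleGraph.fromRel fun u v : Fin n => (u.val, v.val) ∈ A).ConnectedComponent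

/-- The Tutte polynomial of the multigraph with vertices `0, ..., n - 1` and edge list `E` (loops
and repeated edges allowed); the sublists of `E` are the subsets of its edges. -/
noncomputable def tutte (n : ℕ) (E : List (ℕ × ℕ)) (x y : ℚ) : ℚ :=
  (E.sublists.map fun A => (x - 1) ^ (rank n E - rank n A) * (y - 1) ^ (A.length - rank n A)).sum

/-- `f` has an FPRAS: a polynomial time machine reads the graph, the accuracy `1 / k` as `k` in
unary and polynomially many random bits, and outputs a fraction that, for at least three quarters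
of the random strings, is within relative error `1 / k` of `f`. -/
def HasFPRAS (f : ℕ → List (ℕ × ℕ) → ℚ) : Prop :=
  ∃ (M : ((ℕ × List (ℕ × ℕ)) × List Bool) × List Bool → ℤ × ℕ) (p : Polynomial ℕ),
    N68a2faeb.IsPolyTime M ∧ ∀ (n : ℕ) (E : List (ℕ × ℕ)), (∀ e ∈ E, e.1 < n ∧ e.2 < n) →
      ∀ k : ℕ, 0 < k → ∀ l : ℕ,
        l = p.eval (N487b59b3.bitEncode ((n, E), List.replicate k true)).length →
        (3 : ℚ) / 4 ≤ ((Finset.univ.filter fun r : Fin l → Bool =>
          0 < (M (((n, E), List.replicate k true), List.ofFn r)).2 ∧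
          |((M (((n, E), List.replicate k true), List.ofFn r)).1 : ℚ) /
            (M (((n, E), List.replicate k true), List.ofFn r)).2 - f n E| ≤
              |f n E| / k).card : ℚ) / 2 ^ l

open Pool.Agent.Lib in
theorem result (x y : ℚ) (hx : 0 ≤ x) (hy : 0 ≤ y) (h2 : (x - 1) * (y - 1) ≤ 2) :
    HasFPRAS fun n E => tutte n E x y :=
  US.H79.fpr_all US.st_all hx hy h2 fun _ _ h => FL.H10.rank_eq h

end Pool.Agent.Results.MP_b67cc8_lc.NonnegQuadrant
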