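import Pool.Agent.Lib.MP_9bdb70_lc.S2Tutte

/-! A randomized approximation scheme for the Tutte polynomial in time `2^(O(sqrt(n log n)))` at
all rational points with `x > 1`, `y > 1` and `(x - 1) (y - 1) ≥ 1`. -/

namespace Pool.Agent.Results.MP_b67cc8_lc.SqrtRegion

/-- `r(A) = n - k(A)`, where `k(A)` is the number of connected components of the graph on `Fin n`
whose edges are the entries of the list `E` at the positions in `A`. -/
noncomputable def rank (n : ℕ) (E : List (Fin n × Fin n)) (A : Finset (Fin E.length)) : ℕ :=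
  n - Nat.card (SimpleGraph.fromRel fun u v : Fin n => ∃ i ∈ A, E.get i = (u, v)).ConnectedComponent

/-- The Tutte polynomial of the multigraph with vertex set `Fin n` and edge list `E` (loops and
repeated edges allowed). -/
noncomputable def tutte (n : ℕ) (E : List (Fin n × Fin n)) (x y : ℚ) : ℚ :=
  ∑ A : Finset (Fin E.length),
    (x - 1) ^ (rank n E Finset.univ - rank n E A) * (y - 1) ^ (A.card - rank n E A)

/-- The input: the number of vertices in unary, the edge list, and `k` in unary. -/
def input (n : ℕ) (E : List (Fin n × Fin n)) (k : ℕ) : (List Bool × List (ℕ × ℕ)) × List Bool :=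
  ((List.replicate n true, E.map fun e => (e.1.val, e.2.val)), List.replicate k true)

open Pool.Agent.Lib.MP_9bdb70_lc Pool.Agent.Lib.MP_b67cc8_lc in
theorem result (x y : ℚ) (hx : 1 < x) (hy : 1 < y) (hq : 1 ≤ (x - 1) * (y - 1)) :
    ∃ (M : ((List Bool × List (ℕ × ℕ)) × List Bool) × List Bool → ℕ × ℕ) (p : Polynomial ℕ) (C : ℕ),
      N68a2faeb.IsPolyTime M ∧ ∀ (n : ℕ) (E : List (Fin n × Fin n)) (k l : ℕ), 0 < k →
        p.eval (N487b59b3.bitEncode (input n E k)).length *
          2 ^ (C * Nat.sqrt (n * Nat.log 2 n)) ≤ l →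
        (3 : ℚ) / 4 ≤ ((Finset.univ.filter fun r : Fin l → Bool =>
          0 < (M (input n E k, List.ofFn r)).2 ∧
          |((M (input n E k, List.ofFn r)).1 : ℚ) / (M (input n E k, List.ofFn r)).2 -
            tutte n E x y| ≤ |tutte n E x y| / k).card : ℚ) / 2 ^ l := by
  obtain ⟨x₁, x₂, g1, g2, g3⟩ := rat_split hx
  obtain ⟨w₁, w₂, h1, h2, h3⟩ := rat_split hy
  have g4 : (x : ℝ) - 1 = x₁ / x₂ := by rw [g3]; ring
  have h4 : (y : ℝ) - 1 = w₁ / w₂ := by rw [h3]; ring
  obtain ⟨M, p, C, hM, h5, H⟩ := sqrtexp_rk (x₁ := x₁) (x₂ := x₂) (by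
    have := Rat.cast_le (K := ℝ).2 hq
    push_cast at this
    rw [g4, h4, div_mul_div_comm, one_le_div (by positivity)] at this
    exact_mod_cast this) g2 h1 h2
  refine ⟨M, p, C, hM.isPolyTime, fun n E k l hk hl => ?_⟩
  set en : Fin E.length → ℕ × ℕ := fun i => ((E.get i).1.val, (E.get i).2.val) with hen
  have e0 : (E.map fun e => (e.1.val, e.2.val)) = List.ofFn en := by
    conv_lhs => rw [← E.ofFn_get, List.map_ofFn]
    rfl
  have hn : Ends n en := fun e => ⟨(E.get e).1.2, (E.get e).2.2⟩
  have e1 : ∀ A : Finset (Fin E.length), (rank n E A : ℝ) = n - kk n (en '' A) := fun A => by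
    have a := card_comp (fun u v : Fin n => ∃ i ∈ A, E.get i = (u, v)) (R := en '' A) fun p =>
      ⟨fun ⟨i, a, b⟩ => ⟨_, _, ⟨i, a, rfl⟩, b.symm⟩, fun ⟨u, v, ⟨i, a, b⟩, c⟩ =>
        ⟨i, a, by simp only [hen, b, c]⟩⟩
    have b := kk_anti (n := n) (R := ∅) (R' := en '' A) (by simp)
    rw [kk_empty, ← a] at b
    rw [rank, Nat.cast_sub (Nat.cast_le.1 b), a]
  have e2 : rank n E Finset.univ = rkl (List.ofFn en) := by
    have := kk_rkl (n := n) (List.ofFn en) (List.forall_mem_ofFn_iff.2 hn)
    rw [← Nat.cast_inj (R := ℝ), e1, ← this]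
    simp [List.mem_ofFn', Set.range]
  have h6 := H (List.replicate n true) (E.map fun e => (e.1.val, e.2.val)) (List.replicate k true) l
    (tutte n E x y) (List.forall_mem_map.2 (by simp)) (by simpa)
    (by rw [List.length_replicate]; exact hl) (by
      rw [List.length_replicate, e0, ZL_ofFn, Zf, ← e2, tutte, Finset.mul_sum]
      push_cast
      rw [Finset.sum_mul, g4, h4]
      refine Finset.sum_congr rfl fun A _ => ?_
      have a1 : rank n E A ≤ rank n E Finset.univ := by
        rw [← Nat.cast_le (α := ℝ), e1, e1]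
        exact sub_le_sub_left (kk_anti fun p hp => .of_mem (Set.image_mono (by simp) hp)) _
      have a2 : rank n E A ≤ A.card := by
        have := kk_bd hn ∅ A
        rw [Finset.coe_empty, Set.image_empty, Finset.empty_union, kk_empty] at this
        rw [← Nat.cast_le (α := ℝ), e1]
        linarith
      have a3 : rank n E A ≤ n := Nat.sub_le _ _
      rw [show kk n (en '' A) = (n - rank n E A : ℕ) by rw [Nat.cast_sub a3, e1]; ring,
        Real.exp_add, mul_comm (Real.log _),
        mul_comm (Real.log _), Real.exp_nat_mul, Real.exp_nat_mul, Real.exp_log (by positivity),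
        Real.exp_log (by positivity), pow_sub₀ _ (by positivity) a1, pow_sub₀ _ (by positivity) a2,
        pow_sub₀ _ (by positivity) a3, mul_pow _ _ (rank n E A)]
      field_simp)
  have h7 : 0 ≤ tutte n E x y := Finset.sum_nonneg fun _ _ =>
    mul_nonneg (pow_nonneg (by linarith) _) (pow_nonneg (by linarith) _)
  rw [Ex_sum, ← Finset.sum_filter, List.length_replicate] at h6
  simp only [h5, true_and, abs_of_nonneg h7, ← Rat.cast_le (K := ℝ)]
  simpa [input] using h6

end Pool.Agent.Results.MP_b67cc8_lc.SqrtRegion
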